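import Pool.Agent.H89.FLT.S

/-!
# Row IRR: an integer matrix with irreducible characteristic polynomial, diagonal in the basis `g`
-/

set_option autoImplicit false

open Matrix Polynomial

namespace Pool.FLT

/-- the characteristic polynomial over the reals -/
lemma irr_charpoly {n : ℕ} (g : GR n) (η : Matrix (Fin n) (Fin n) ℤ) (d : Fin n → ℝ)
    (h : Dg g η d) : η.charpoly.map (Int.castRingHom ℝ) = ∏ i, (X - C (d i)) := by
  rw [← Matrix.charpoly_map]
  have h1 : η.map (Int.castRingHom ℝ) = cst η := rfl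
  have h2 : (g : Matrix (Fin n) (Fin n) ℝ) * ((g⁻¹ : GR n) : Matrix (Fin n) (Fin n) ℝ) = 1 := by
    rw [← Matrix.SpecialLinearGroup.coe_mul, mul_inv_cancel, Matrix.SpecialLinearGroup.coe_one]
  have h3 : ((g⁻¹ : GR n) : Matrix (Fin n) (Fin n) ℝ) * (g : Matrix (Fin n) (Fin n) ℝ) = 1 := by
    rw [← Matrix.SpecialLinearGroup.coe_mul, inv_mul_cancel, Matrix.SpecialLinearGroup.coe_one]
  have h4 : cst η = (g : Matrix (Fin n) (Fin n) ℝ) * Matrix.diagonal d *
      ((g⁻¹ : GR n) : Matrix (Fin n) (Fin n) ℝ) := by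
    have h5 : cst η * (g : Matrix (Fin n) (Fin n) ℝ) =
      (g : Matrix (Fin n) (Fin n) ℝ) * Matrix.diagonal d := h
    rw [← h5, Matrix.mul_assoc, h2, Matrix.mul_one]
  rw [h1, h4, Matrix.charpoly_mul_comm, ← Matrix.mul_assoc, h3, Matrix.one_mul,
    Matrix.charpoly_diagonal]

/-- monic factors of a product of linear factors -/
lemma irr_factor {ι : Type*} [DecidableEq ι] (d : ι → ℝ) (S : Finset ι) :
    ∀ f h : ℝ[X], f.Monic → h.Monic → f * h = ∏ i ∈ S, (X - C (d i)) →
      ∃ I ⊆ S, f = ∏ i ∈ I, (X - C (d i)) := by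
  induction S using Finset.induction_on with
  | empty =>
    intro f h hf hh he
    refine ⟨∅, le_rfl, ?_⟩
    rw [Finset.prod_empty] at he ⊢
    exact hf.eq_one_of_isUnit (IsUnit.of_mul_eq_one h he)
  | insert a S ha ih =>
    intro f h hf hh he
    rw [Finset.prod_insert ha] at he
    have hp : Prime (X - C (d a)) := prime_X_sub_C (d a)
    have h1 : (X - C (d a)) ∣ f * h := by rw [he]; exact dvd_mul_right _ _
    rcases hp.dvd_or_dvd h1 with ⟨f', hf'⟩ | ⟨h', hh'⟩
    · have h2 : f'.Monic := by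
        rw [hf'] at hf
        exact (monic_X_sub_C (d a)).of_mul_monic_left hf
      have h3 : f' * h = ∏ i ∈ S, (X - C (d i)) := by
        apply mul_left_cancel₀ hp.ne_zero
        rw [← he, hf']; ring
      obtain ⟨I, hI, hfI⟩ := ih f' h h2 hh h3
      refine ⟨insert a I, Finset.insert_subset_insert a hI, ?_⟩
      rw [Finset.prod_insert (fun hm => ha (hI hm)), hf', hfI]
    · have h2 : h'.Monic := by
        rw [hh'] at hh
        exact (monic_X_sub_C (d a)).of_mul_monic_left hh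
      have h3 : f * h' = ∏ i ∈ S, (X - C (d i)) := by
        apply mul_left_cancel₀ hp.ne_zero
        rw [← he, hh']; ring
      obtain ⟨I, hI, hfI⟩ := ih f h' hf h2 h3
      exact ⟨I, hI.trans (Finset.subset_insert a S), hfI⟩

/-- the vector `s (n - 1, -1, ..., -1)` -/
noncomputable def irr_z (n : ℕ) (i0 : Fin n) (s : ℝ) : aa n :=
  ⟨WithLp.toLp 2 fun i => s * ((if i = i0 then (n : ℝ) else 0) - 1), by
    have h : ∑ i : Fin n, s * ((if i = i0 then (n : ℝ) else 0) - 1) = 0 := by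
      rw [← Finset.mul_sum, Finset.sum_sub_distrib, Finset.sum_ite_eq' Finset.univ i0]
      simp
    exact h⟩

lemma irr_z_co (n : ℕ) (i0 : Fin n) (s : ℝ) (i : Fin n) :
    co (irr_z n i0 s) i = s * ((if i = i0 then (n : ℝ) else 0) - 1) := rfl

lemma irr_z_sum (n : ℕ) (i0 : Fin n) (s : ℝ) (hs : 0 ≤ s) (I : Finset (Fin n)) (hI : I.Nonempty)
    (hI2 : I.card < n) : s ≤ |∑ i ∈ I, co (irr_z n i0 s) i| := by
  simp only [irr_z_co]
  rw [← Finset.mul_sum, Finset.sum_sub_distrib, Finset.sum_ite_eq' I i0, abs_mul, abs_of_nonneg hs]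
  have h1 : (1 : ℝ) ≤ |(if i0 ∈ I then (n : ℝ) else 0) - ∑ i ∈ I, (1 : ℝ)| := by
    rw [Finset.sum_const, nsmul_eq_mul, mul_one]
    have h2 : (1 : ℝ) ≤ I.card := by exact_mod_cast hI.card_pos
    have h3 : (I.card : ℝ) + 1 ≤ n := by exact_mod_cast hI2
    by_cases h : i0 ∈ I
    · rw [if_pos h, abs_of_nonneg (by linarith)]
      linarith
    · rw [if_neg h, zero_sub, abs_neg, abs_of_nonneg (by linarith)]
      exact h2
  nlinarith

lemma irr_co_le {n : ℕ} (x : aa n) (i : Fin n) : |co x i| ≤ ‖x‖ := by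
  have h1 := PiLp.norm_apply_le (x : EuclideanSpace ℝ (Fin n)) i
  rw [Real.norm_eq_abs] at h1
  exact h1

theorem irr : IRRStmt := by
  classical
  intro n hn g B' hB hC
  obtain ⟨R, hR⟩ := hB.isBounded.exists_norm_le
  have hR0 : 0 ≤ |R| := abs_nonneg R
  obtain ⟨s, hs⟩ : ∃ s : ℝ, s = n * |R| + 1 := ⟨_, rfl⟩
  have hs0 : 0 ≤ s := by rw [hs]; positivity
  have i0 : Fin n := ⟨0, by omega⟩
  obtain ⟨l, ⟨η, d, hd, hl⟩, b, hb, hz⟩ := hC (irr_z n i0 s)
  refine ⟨η, d, hd, ?_⟩
  have hch := irr_charpoly g η d hd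
  have hm : η.charpoly.Monic := Matrix.charpoly_monic η
  have hdeg : η.charpoly.natDegree = n := by
    rw [Matrix.charpoly_natDegree_eq_dim, Fintype.card_fin]
  rw [chQ]
  refine (hm.irreducible_iff_irreducible_map_fraction_map (K := ℚ)).1 ?_
  rw [hm.irreducible_iff_natDegree]
  refine ⟨?_, ?_⟩
  · intro h1
    rw [h1, natDegree_one] at hdeg
    omega
  intro f h hf hh hfh
  by_contra hcon
  push Not at hcon
  obtain ⟨hf0, hh0⟩ := hcon
  have hfm := hf.map (Int.castRingHom ℝ)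
  have hhm := hh.map (Int.castRingHom ℝ)
  obtain ⟨I, -, hI⟩ := irr_factor d Finset.univ _ _ hfm hhm (by
    rw [← Polynomial.map_mul, hfh, hch])
  have hfI : f.natDegree = I.card := by
    have h1 : (f.map (Int.castRingHom ℝ)).natDegree = f.natDegree := hf.natDegree_map _
    rw [← h1, hI, natDegree_prod_of_monic _ _ (fun i _ => monic_X_sub_C (d i))]
    simp
  have hadd : f.natDegree + h.natDegree = n := by
    rw [← hdeg, ← hfh, hf.natDegree_mul hh]
  have hIn : I.Nonempty := by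
    rw [← Finset.card_pos]; omega
  have hIc : I.card < n := by omega
  -- constant terms
  have hcf : |((f.coeff 0 : ℤ) : ℝ)| = ∏ i ∈ I, |d i| := by
    have h1 : ((f.coeff 0 : ℤ) : ℝ) = (f.map (Int.castRingHom ℝ)).eval 0 := by
      rw [← coeff_zero_eq_eval_zero, coeff_map]; rfl
    rw [h1, hI, eval_prod, Finset.abs_prod]
    refine Finset.prod_congr rfl fun i _ => ?_
    simp
  have hcp : |((η.charpoly.coeff 0 : ℤ) : ℝ)| = 1 := by
    have h1 : ((η.charpoly.coeff 0 : ℤ) : ℝ) = (η.charpoly.map (Int.castRingHom ℝ)).eval 0 := by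
      rw [← coeff_zero_eq_eval_zero, coeff_map]; rfl
    rw [h1, hch, eval_prod, Finset.abs_prod]
    have h2 : ∀ i, |eval 0 (X - C (d i))| = Real.exp (co l i) := by
      intro i
      rw [← hl i]
      simp
    rw [Finset.prod_congr rfl fun i _ => h2 i, ← Real.exp_sum]
    have h3 : ∑ i, co l i = 0 := l.2
    rw [h3, Real.exp_zero]
  have hf1 : |f.coeff 0| = 1 := by
    have h1 : |η.charpoly.coeff 0| = 1 := by exact_mod_cast hcp
    rw [← hfh, mul_coeff_zero, abs_mul] at h1
    exact Int.eq_one_of_mul_eq_one_right (abs_nonneg _) h1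
  have hsum : ∑ i ∈ I, co l i = 0 := by
    have h1 : ∏ i ∈ I, |d i| = 1 := by
      rw [← hcf]; exact_mod_cast hf1
    rw [Finset.prod_congr rfl fun i _ => hl i, ← Real.exp_sum, Real.exp_eq_one_iff] at h1
    exact h1
  have h1 := irr_z_sum n i0 s hs0 I hIn hIc
  have h2 : ∑ i ∈ I, co (irr_z n i0 s) i = ∑ i ∈ I, co b i := by
    have h3 : ∀ i, co (irr_z n i0 s) i = co l i + co b i := by
      intro i
      rw [hz]; rfl
    rw [Finset.sum_congr rfl fun i _ => h3 i, Finset.sum_add_distrib, hsum, zero_add]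
  rw [h2] at h1
  have h3 : |∑ i ∈ I, co b i| ≤ n * |R| := by
    calc |∑ i ∈ I, co b i| ≤ ∑ i ∈ I, |co b i| := Finset.abs_sum_le_sum_abs _ _
      _ ≤ ∑ _i ∈ I, |R| := by
          apply Finset.sum_le_sum
          intro i _
          exact (irr_co_le b i).trans ((hR b hb).trans (le_abs_self R))
      _ = I.card * |R| := by rw [Finset.sum_const, nsmul_eq_mul]
      _ ≤ n * |R| := by
          have : (I.card : ℝ) ≤ n := by exact_mod_cast hIc.le
          gcongr
  rw [hs] at h1
  linarith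

end Pool.FLT
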